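import Pool.Agent.W2helper78.KW.Stm

/-!
KW-1 of the hard disk project (helper78): the area of a cap.
-/

set_option autoImplicit false

open MeasureTheory Real Set

namespace Pool.Agent.W2helper19.KW

open Pool.Agent.W2helper78.KW

/-- the integral -/
lemma int_cap (R d : ℝ) (hR : 0 < R) (hd : 0 ≤ d) (hdR : d ≤ R) :
    ∫ t in d..R, 2 * √(R ^ 2 - t ^ 2) = R ^ 2 * arccos (d / R) - d * √(R ^ 2 - d ^ 2) := by
  have hF : ContinuousOn (fun t : ℝ => R ^ 2 * arcsin (R⁻¹ * t) + t * √(R ^ 2 - t ^ 2)) (Icc d R) := by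
    fun_prop
  have hder : ∀ t ∈ Ioo d R, HasDerivAt (fun t : ℝ => R ^ 2 * arcsin (R⁻¹ * t) + t * √(R ^ 2 - t ^ 2))
      (2 * √(R ^ 2 - t ^ 2)) t := by
    intro t ht
    obtain ⟨h1, h2⟩ := ht
    have h3 : 0 < R ^ 2 - t ^ 2 := by nlinarith
    have hs : 0 < √(R ^ 2 - t ^ 2) := Real.sqrt_pos.2 h3
    have hlt : R⁻¹ * t < 1 := by
      rw [inv_mul_lt_iff₀ hR]; linarith
    have hge : 0 ≤ R⁻¹ * t := by
      have : 0 ≤ t := by linarith
      positivity
    have d1 : HasDerivAt (fun t : ℝ => R⁻¹ * t) R⁻¹ t := by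
      simpa using (hasDerivAt_id' t).const_mul R⁻¹
    have d2 := ((hasDerivAt_arcsin (show R⁻¹ * t ≠ -1 by linarith) (show R⁻¹ * t ≠ 1 by linarith)).comp t
      d1).const_mul (R ^ 2)
    have d3 : HasDerivAt (fun t : ℝ => √(R ^ 2 - t ^ 2)) (-(2 * t) / (2 * √(R ^ 2 - t ^ 2))) t := by
      have h := ((hasDerivAt_pow 2 t).const_sub (R ^ 2)).sqrt h3.ne'
      refine h.congr_deriv ?_
      norm_num
    have d4 := (hasDerivAt_id' t).mul d3
    have d5 := d2.add d4
    refine d5.congr_deriv ?_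
    have e1 : √(1 - (R⁻¹ * t) ^ 2) = √(R ^ 2 - t ^ 2) / R := by
      rw [eq_div_iff hR.ne', ← Real.sqrt_sq hR.le, ← Real.sqrt_mul', Real.sqrt_sq hR.le]
      · congr 1; field_simp
      · positivity
    rw [e1]
    field_simp
    rw [Real.sq_sqrt h3.le]
    ring
  have hI : IntervalIntegrable (fun t : ℝ => 2 * √(R ^ 2 - t ^ 2)) volume d R :=
    Continuous.intervalIntegrable (by fun_prop) _ _
  rw [intervalIntegral.integral_eq_sub_of_hasDerivAt_of_le hdR hF hder hI]
  rw [inv_mul_cancel₀ hR.ne', Real.arcsin_one, sub_self, Real.sqrt_zero, mul_zero, add_zero,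
    Real.arccos, div_eq_inv_mul]
  ring_nf

/-- the standard cap -/
def cap (R d : ℝ) : Set ℂ := {q | ‖q‖ < R ∧ d ≤ q.re}

lemma vol_cap (R d : ℝ) (hR : 0 < R) (hd : 0 ≤ d) (hdR : d ≤ R) :
    volume (cap R d) = ENNReal.ofReal (R ^ 2 * arccos (d / R) - d * √(R ^ 2 - d ^ 2)) := by
  have h1 : cap R d = Complex.measurableEquivRealProd ⁻¹'
      (regionBetween (fun t => -√(R ^ 2 - t ^ 2)) (fun t => √(R ^ 2 - t ^ 2)) (Icc d R)) := by
    ext q
    simp only [cap, regionBetween, Set.mem_ofPred_eq, mem_preimage, Complex.measurableEquivRealProd_apply,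
      mem_Icc, mem_Ioo]
    have e : ‖q‖ < R ↔ q.re ^ 2 + q.im ^ 2 < R ^ 2 := by
      rw [← sq_lt_sq₀ (norm_nonneg _) hR.le, Complex.sq_norm, Complex.normSq_apply]
      ring_nf
    rw [e]
    constructor
    · rintro ⟨a, b⟩
      have hb : q.re ≤ R := by nlinarith [sq_nonneg q.im]
      have h3 : q.im ^ 2 < R ^ 2 - q.re ^ 2 := by linarith
      have h4 : |q.im| < √(R ^ 2 - q.re ^ 2) := (Real.lt_sqrt (abs_nonneg _)).2 (by rw [sq_abs]; exact h3)
      exact ⟨⟨b, hb⟩, abs_lt.1 h4⟩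
    · rintro ⟨⟨a, b⟩, c⟩
      have h4 : |q.im| < √(R ^ 2 - q.re ^ 2) := abs_lt.2 c
      have h5 := (Real.lt_sqrt (abs_nonneg _)).1 h4
      rw [sq_abs] at h5
      exact ⟨by linarith, a⟩
  rw [h1, Complex.volume_preserving_equiv_real_prod.measure_preimage_equiv]
  have hc : Continuous (fun t : ℝ => √(R ^ 2 - t ^ 2)) := by fun_prop
  have hc' : Continuous (fun t : ℝ => -√(R ^ 2 - t ^ 2)) := by fun_prop
  rw [show (volume : Measure (ℝ × ℝ)) = volume.prod volume from rfl]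
  rw [volume_regionBetween_eq_integral (hc'.continuousOn.integrableOn_Icc)
    (hc.continuousOn.integrableOn_Icc) measurableSet_Icc
    (fun t _ => by
      have := Real.sqrt_nonneg (R ^ 2 - t ^ 2)
      linarith)]
  congr 1
  rw [← int_cap R d hR hd hdR, integral_Icc_eq_integral_Ioc, intervalIntegral.integral_of_le hdR]
  congr 1
  ext t
  simp only [Pi.sub_apply]
  ring

lemma cap_empty (R d : ℝ) (hdR : R < d) : cap R d = ∅ := by
  ext q
  simp only [cap, Set.mem_ofPred_eq, mem_empty_iff_false, iff_false, not_and, not_le]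
  intro h
  have := Complex.re_le_norm q
  linarith

/-- the motion -/
lemma vol_eq (x y : ℂ) (h : 0 < ‖y - x‖) (R : ℝ) :
    volume {p : ℂ | ‖p - x‖ < R ∧ ‖p - y‖ ≤ ‖p - x‖} = volume (cap R (‖y - x‖ / 2)) := by
  set v := y - x with hv
  have hu : ‖((‖v‖ : ℂ) / v)‖ = 1 := by
    rw [norm_div, Complex.norm_real, norm_norm, div_self h.ne']
  let c : Circle := ⟨(‖v‖ : ℂ) / v, by
    rw [Submonoid.unitSphere, Submonoid.mem_mk]; simpa using hu⟩
  have hmp : MeasurePreserving (fun p : ℂ => rotation c (p - x)) volume volume :=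
    (rotation c).measurePreserving.comp (measurePreserving_sub_right volume x)
  have hpre : {p : ℂ | ‖p - x‖ < R ∧ ‖p - y‖ ≤ ‖p - x‖} =
      (fun p : ℂ => rotation c (p - x)) ⁻¹' (cap R (‖v‖ / 2)) := by
    ext p
    simp only [cap, Set.mem_ofPred_eq, mem_preimage, rotation_apply, norm_mul, Circle.norm_coe, one_mul]
    apply and_congr_right
    intro _
    have e1 : ((c : ℂ) * (p - x)).re = ((p - x).re * v.re + (p - x).im * v.im) / ‖v‖ := by
      have hv2 : ‖v‖ ^ 2 = v.re ^ 2 + v.im ^ 2 := by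
        rw [Complex.sq_norm, Complex.normSq_apply]; ring
      have e2 : (c : ℂ) = (starRingEnd ℂ) v / ‖v‖ := by
        have hv0 : v ≠ 0 := norm_pos_iff.1 h
        have hn : (‖v‖ : ℂ) ≠ 0 := by exact_mod_cast h.ne'
        show (‖v‖ : ℂ) / v = _
        rw [div_eq_div_iff hv0 hn, ← sq, mul_comm ((starRingEnd ℂ) v), Complex.mul_conj,
          Complex.normSq_eq_norm_sq]
        push_cast
        ring
      rw [e2, div_mul_eq_mul_div, Complex.div_ofReal_re]
      congr 1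
      simp only [Complex.mul_re, Complex.conj_re, Complex.conj_im]
      ring
    rw [e1, div_le_div_iff₀ (by norm_num) h, ← sq]
    have e3 : ‖p - y‖ ≤ ‖p - x‖ ↔ ‖p - y‖ ^ 2 ≤ ‖p - x‖ ^ 2 :=
      (sq_le_sq₀ (norm_nonneg _) (norm_nonneg _)).symm
    rw [e3]
    have e4 : ‖p - y‖ ^ 2 = ‖p - x‖ ^ 2 - 2 * ((p - x).re * v.re + (p - x).im * v.im) + ‖v‖ ^ 2 := by
      rw [Complex.sq_norm, Complex.sq_norm, Complex.sq_norm, Complex.normSq_apply,
        Complex.normSq_apply, Complex.normSq_apply]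
      simp only [hv, Complex.sub_re, Complex.sub_im]
      ring
    rw [e4]
    constructor <;> intro h <;> linarith
  rw [hpre]
  refine hmp.measure_preimage ?_
  apply MeasurableSet.nullMeasurableSet
  have : cap R (‖v‖ / 2) = {q : ℂ | ‖q‖ < R} ∩ {q : ℂ | ‖v‖ / 2 ≤ q.re} := rfl
  rw [this]
  exact (isOpen_lt continuous_norm continuous_const).measurableSet.inter
    (isClosed_le continuous_const Complex.continuous_re).measurableSet

/-- **KW-1** -/
theorem capStm : CapStm := by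
  intro x y hxy
  have h0 : 0 < ‖y - x‖ := by linarith
  have h3 : (0:ℝ) < √3 := by positivity
  have hR : (0:ℝ) < 1 / √3 := by positivity
  have hR2 : (1 / √3) ^ 2 = (1:ℝ) / 3 := by
    rw [div_pow, Real.sq_sqrt (by norm_num)]; norm_num
  rw [measureReal_def, vol_eq x y h0 (1 / √3)]
  have hc : ‖y - x‖ / 2 / (1 / √3) = √3 / 2 * ‖y - x‖ := by field_simp
  rcases le_or_gt (‖y - x‖ / 2) (1 / √3) with hle | hgt
  · rw [vol_cap _ _ hR (by linarith) hle, hc]
    have hc1 : √3 / 2 * ‖y - x‖ ≤ 1 := by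
      rw [← hc, div_le_one hR]; exact hle
    have hc0 : 0 ≤ √3 / 2 * ‖y - x‖ := by positivity
    have key : (1 / √3) ^ 2 * arccos (√3 / 2 * ‖y - x‖) -
        ‖y - x‖ / 2 * √((1 / √3) ^ 2 - (‖y - x‖ / 2) ^ 2) = (th x y - sin (th x y)) / 6 := by
      unfold th
      rw [Real.sin_two_mul, Real.sin_arccos, Real.cos_arccos (by linarith) hc1, hR2]
      have e1 : √(1 - (√3 / 2 * ‖y - x‖) ^ 2) = √3 * √(1 / 3 - (‖y - x‖ / 2) ^ 2) := by
        rw [← Real.sqrt_mul (by norm_num)]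
        congr 1
        rw [mul_pow, div_pow, Real.sq_sqrt (by norm_num)]
        ring
      rw [e1]
      have e2 : √3 * √3 = (3:ℝ) := Real.mul_self_sqrt (by norm_num)
      linear_combination ((‖y - x‖ * √(1 / 3 - (‖y - x‖ / 2) ^ 2)) / 6) * e2
    rw [key, ENNReal.toReal_ofReal]
    unfold th
    have : sin (2 * arccos (√3 / 2 * ‖y - x‖)) ≤ 2 * arccos (√3 / 2 * ‖y - x‖) :=
      Real.sin_le (by have := Real.arccos_nonneg (√3 / 2 * ‖y - x‖); linarith)
    linarith
  · rw [cap_empty _ _ hgt, measure_empty]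
    have hc1 : 1 ≤ √3 / 2 * ‖y - x‖ := by
      rw [← hc, le_div_iff₀ hR]; linarith
    unfold th
    rw [Real.arccos_of_one_le hc1]
    simp

end Pool.Agent.W2helper19.KW
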