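import Pool.Agent.W2helper78.KW.Stm

/-!
KW-4a of the hard disk project (helper78): local rigidity.
-/

set_option autoImplicit false

open MeasureTheory Real

namespace Pool.Agent.W2helper19.KW

open Pool.Agent.W2helper78.KW

lemma sq_norm' (z : ℂ) : ‖z‖ ^ 2 = z.re ^ 2 + z.im ^ 2 := by
  rw [Complex.sq_norm, Complex.normSq_apply]; ring

/-- one neighbour -/
lemma one_nb (x y x' y' : ℂ) (h : ℝ) (h0 : 0 < h) (h1 : h ≤ 1 / 1000)
    (hy : ‖y - y'‖ ≤ 2 * h) (hd : |‖x - y‖ - ‖x' - y'‖| ≤ h) (hxy : ‖x - y‖ ≤ 11 / 10) :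
    |(x - y).re * (x' - x).re + (x - y).im * (x' - x).im| ≤ (7 * h + ‖x' - x‖ ^ 2) / 2 := by
  have e1 : ‖x' - y‖ ≤ ‖x - y‖ + 3 * h := by
    have : x' - y = (x' - y') - (y - y') := by ring
    have h2 : ‖x' - y‖ ≤ ‖x' - y'‖ + ‖y - y'‖ := by rw [this]; exact norm_sub_le _ _
    have := (abs_le.1 hd).1
    linarith
  have e2 : ‖x - y‖ - 3 * h ≤ ‖x' - y‖ := by
    have : x' - y' = (x' - y) + (y - y') := by ring
    have h2 : ‖x' - y'‖ ≤ ‖x' - y‖ + ‖y - y'‖ := by rw [this]; exact norm_add_le _ _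
    have := (abs_le.1 hd).2
    linarith
  have e3 : ‖x' - y‖ ^ 2 = ‖x - y‖ ^ 2 +
      (2 * ((x - y).re * (x' - x).re + (x - y).im * (x' - x).im) + ‖x' - x‖ ^ 2) := by
    simp only [sq_norm', Complex.sub_re, Complex.sub_im]; ring
  have n1 := norm_nonneg (x' - y)
  have n2 := norm_nonneg (x - y)
  have n3 := sq_nonneg ‖x' - x‖
  have e4 : |‖x' - y‖ ^ 2 - ‖x - y‖ ^ 2| ≤ 7 * h := by
    have : ‖x' - y‖ ^ 2 - ‖x - y‖ ^ 2 = (‖x' - y‖ - ‖x - y‖) * (‖x' - y‖ + ‖x - y‖) := by ring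
    rw [this, abs_mul]
    have a1 : |‖x' - y‖ - ‖x - y‖| ≤ 3 * h := abs_le.2 ⟨by linarith, by linarith⟩
    have a2 : |‖x' - y‖ + ‖x - y‖| ≤ 7 / 3 := by
      rw [abs_of_nonneg (by linarith)]; linarith
    calc |‖x' - y‖ - ‖x - y‖| * |‖x' - y‖ + ‖x - y‖| ≤ (3 * h) * (7 / 3) :=
          mul_le_mul a1 a2 (abs_nonneg _) (by linarith)
      _ = 7 * h := by ring
  rw [e3] at e4
  obtain ⟨f1, f2⟩ := abs_le.1 e4
  exact abs_le.2 ⟨by linarith, by linarith⟩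

/-- **KW-4a** -/
theorem locStm : LocStm := by
  intro x y z x' y' z' h h0 h1 hy hz hdy hdz hx hxy hxz hdet
  have p1 := one_nb x y x' y' h h0 h1 hy hdy hxy
  have p2 := one_nb x z x' z' h h0 h1 hz hdz hxz
  set w := ‖x' - x‖ with hw
  have hw' : ‖x - x'‖ = w := by rw [hw, norm_sub_rev]
  rw [hw'] at hx ⊢
  have hw0 : 0 ≤ w := norm_nonneg _
  set p := (x - y).re * (x' - x).re + (x - y).im * (x' - x).im with hp
  set q := (x - z).re * (x' - x).re + (x - z).im * (x' - x).im with hq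
  set Dt := (y - x).re * (z - x).im - (y - x).im * (z - x).re with hD
  -- Cramer
  have c1 : (|Dt| * w) ^ 2 ≤ (|p| * ‖x - z‖ + |q| * ‖x - y‖) ^ 2 := by
    have e : (|Dt| * w) ^ 2 = ‖(p : ℂ) * (x - z) - (q : ℂ) * (x - y)‖ ^ 2 := by
      rw [mul_pow, sq_abs, hw, sq_norm', sq_norm']
      simp only [Complex.sub_re, Complex.sub_im, Complex.mul_re, Complex.mul_im, Complex.ofReal_re,
        Complex.ofReal_im, hp, hq, hD]
      ring
    rw [e]
    apply pow_le_pow_left₀ (norm_nonneg _)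
    refine (norm_sub_le _ _).trans ?_
    rw [norm_mul, norm_mul, Complex.norm_real, Complex.norm_real, Real.norm_eq_abs,
      Real.norm_eq_abs]
  have c2 : |Dt| * w ≤ |p| * ‖x - z‖ + |q| * ‖x - y‖ := by
    refine le_of_sq_le_sq c1 ?_
    positivity
  have c3 : |p| * ‖x - z‖ ≤ (7 * h + w ^ 2) / 2 * (11 / 10) :=
    mul_le_mul p1 hxz (norm_nonneg _) (by positivity)
  have c4 : |q| * ‖x - y‖ ≤ (7 * h + w ^ 2) / 2 * (11 / 10) :=
    mul_le_mul p2 hxy (norm_nonneg _) (by positivity)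
  have c5 : 1 / 2 * w ≤ |Dt| * w := mul_le_mul_of_nonneg_right hdet hw0
  have c6 : w ^ 2 ≤ 1 / 50 * w := by rw [sq]; exact mul_le_mul_of_nonneg_right hx hw0
  nlinarith

end Pool.Agent.W2helper19.KW
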